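import Pool.Agent.V7H41.CC.Spec

/-!
# (SUM) The sum over all partitions separated in the natural order
-/

set_option autoImplicit false

open Finset

namespace Pool.Agent.V7H62.CC

open Pool.Agent.V7H41.CC

variable {n : ℕ}

/-- the number of the elements of `U` smaller than `x` -/
def rk (U : Finset (Fin n)) (x : Fin n) : ℕ := (U.filter (· < x)).card

/-- the start of the block `i` -/
def st {r : ℕ} (b : Fin r → ℕ) (i : Fin r) : ℕ := ∑ j ∈ univ.filter (· < i), (b j + 1)

/-- the block `i` of `U` -/
def blk {r : ℕ} (U : Finset (Fin n)) (b : Fin r → ℕ) (i : Fin r) : Finset (Fin n) :=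
  U.filter (fun x => st b i ≤ rk U x ∧ rk U x < st b i + (b i + 1))

lemma st_mono {r : ℕ} (b : Fin r → ℕ) {i j : Fin r} (h : i < j) : st b i + (b i + 1) ≤ st b j := by
  unfold st
  have h1 : insert i (univ.filter (· < i)) ⊆ univ.filter (· < j) := by
    intro k hk
    rw [mem_insert, mem_filter] at hk
    rw [mem_filter]
    refine ⟨mem_univ _, ?_⟩
    rcases hk with rfl | ⟨-, hk⟩
    · exact h
    · exact hk.trans h
  have h2 : i ∉ univ.filter (· < i) := by simp
  calc (∑ k ∈ univ.filter (· < i), (b k + 1)) + (b i + 1)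
      = ∑ k ∈ insert i (univ.filter (· < i)), (b k + 1) := by rw [sum_insert h2, add_comm]
    _ ≤ _ := sum_le_sum_of_subset h1

/-- `A` is before `B` -/
def Bef (A B : Finset (Fin n)) : Prop := ∀ a ∈ A, ∀ b ∈ B, a < b

instance (A B : Finset (Fin n)) : Decidable (Bef A B) := by unfold Bef; infer_instance

/-- The blocks of a family of separated sets. -/
theorem blocks (N : Finset (Finset (Fin n))) (h1 : ∀ A ∈ N, A.Nonempty)
    (h2 : ∀ A ∈ N, ∀ B ∈ N, A ≠ B → Bef A B ∨ Bef B A) :
    ∃ b : Fin N.card → ℕ, N = univ.image (blk (N.biUnion id) b) ∧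
      (∑ A ∈ N, A.card = ∑ i, (b i + 1)) ∧ (∏ A ∈ N, A.card.factorial = ∏ i, (b i + 1).factorial) ∧
      (∀ i, ∃ A ∈ N, A.card = b i + 1) := by
  classical
  have irr : ∀ A ∈ N, ¬ Bef A A := by
    intro A hA h
    obtain ⟨a, ha⟩ := h1 A hA
    exact lt_irrefl _ (h a ha a ha)
  have tr : ∀ A B C : Finset (Fin n), B ∈ N → Bef A B → Bef B C → Bef A C := by
    intro A B C hB h h' a ha c hc
    obtain ⟨b, hb⟩ := h1 B hB
    exact (h a ha b hb).trans (h' b hb c hc)
  set idx : Finset (Fin n) → ℕ := fun A => (N.filter (fun B => Bef B A)).card with hidx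
  have idx_lt : ∀ A ∈ N, ∀ B ∈ N, Bef A B → idx A < idx B := by
    intro A hA B hB h
    apply card_lt_card
    rw [ssubset_iff_of_subset]
    · exact ⟨A, mem_filter.2 ⟨hA, h⟩, fun h' => irr A hA (mem_filter.1 h').2⟩
    · intro C hC
      rw [mem_filter] at hC ⊢
      exact ⟨hC.1, tr C A B hA hC.2 h⟩
  have idx_inj : ∀ A ∈ N, ∀ B ∈ N, idx A = idx B → A = B := by
    intro A hA B hB h
    by_contra hne
    rcases h2 A hA B hB hne with h3 | h3
    · exact absurd h (idx_lt A hA B hB h3).ne
    · exact absurd h (idx_lt B hB A hA h3).ne'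
  have idx_range : ∀ A ∈ N, idx A < N.card := by
    intro A hA
    apply card_lt_card
    rw [ssubset_iff_of_subset (filter_subset _ _)]
    exact ⟨A, hA, fun h' => irr A hA (mem_filter.1 h').2⟩
  have himg : N.image idx = range N.card := by
    apply eq_of_subset_of_card_le
    · intro k hk
      rw [mem_image] at hk
      obtain ⟨A, hA, rfl⟩ := hk
      exact mem_range.2 (idx_range A hA)
    · rw [card_range, card_image_of_injOn]
      intro A hA B hB h
      exact idx_inj A hA B hB h
  have hex : ∀ i : Fin N.card, ∃ A ∈ N, idx A = i := by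
    intro i
    have : (i : ℕ) ∈ N.image idx := by rw [himg]; exact mem_range.2 i.2
    rw [mem_image] at this
    exact this
  choose g gN gi using hex
  have ginj : Function.Injective g := by
    intro i j h
    apply Fin.ext
    rw [← gi i, ← gi j, h]
  have gimg : univ.image g = N := by
    apply eq_of_subset_of_card_le
    · intro A hA
      rw [mem_image] at hA
      obtain ⟨i, -, rfl⟩ := hA
      exact gN i
    · rw [card_image_of_injective _ ginj, card_univ, Fintype.card_fin]
  have glt : ∀ i j : Fin N.card, i < j ↔ Bef (g i) (g j) := by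
    intro i j
    constructor
    · intro h
      have h' : idx (g i) < idx (g j) := by rw [gi, gi]; exact h
      have hne : g i ≠ g j := fun h3 => by rw [h3] at h'; exact lt_irrefl _ h'
      rcases h2 _ (gN i) _ (gN j) hne with h3 | h3
      · exact h3
      · exact absurd (idx_lt _ (gN j) _ (gN i) h3) (by omega)
    · intro h
      have := idx_lt _ (gN i) _ (gN j) h
      rw [gi, gi] at this
      exact this
  have gpos : ∀ i, 1 ≤ (g i).card := fun i => (h1 _ (gN i)).card_pos
  set b : Fin N.card → ℕ := fun i => (g i).card - 1 with hb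
  have hb1 : ∀ i, b i + 1 = (g i).card := by
    intro i
    have := gpos i
    simp only [hb]
    omega
  have hsum : ∀ f : Finset (Fin n) → ℕ, ∑ A ∈ N, f A = ∑ i, f (g i) := by
    intro f
    have h3 := sum_image (f := f) (g := g) (s := univ) (fun i _ j _ h => ginj h)
    rw [gimg] at h3
    exact h3
  have hprod : ∀ f : Finset (Fin n) → ℕ, ∏ A ∈ N, f A = ∏ i, f (g i) := by
    intro f
    have h3 := prod_image (f := f) (g := g) (s := univ) (fun i _ j _ h => ginj h)
    rw [gimg] at h3
    exact h3
  -- disjointness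
  have hdis : ∀ A ∈ N, ∀ B ∈ N, A ≠ B → Disjoint A B := by
    intro A hA B hB hne
    rw [Finset.disjoint_left]
    intro x hxA hxB
    rcases h2 A hA B hB hne with h3 | h3
    · exact lt_irrefl _ (h3 x hxA x hxB)
    · exact lt_irrefl _ (h3 x hxB x hxA)
  -- the rank
  have hrk : ∀ i : Fin N.card, ∀ x ∈ g i, rk (N.biUnion id) x = st b i + ((g i).filter (· < x)).card := by
    intro i x hx
    have e1 : (N.biUnion id).filter (· < x) = N.biUnion (fun B => B.filter (· < x)) := by
      ext y
      simp only [mem_filter, mem_biUnion, id]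
      constructor
      · rintro ⟨⟨B, hB, hy⟩, h3⟩
        exact ⟨B, hB, hy, h3⟩
      · rintro ⟨B, hB, hy, h3⟩
        exact ⟨⟨B, hB, hy⟩, h3⟩
    unfold rk
    rw [e1, card_biUnion, hsum (fun B => (B.filter (· < x)).card)]
    · rw [← add_sum_erase univ _ (mem_univ i), add_comm]
      congr 1
      unfold st
      have e2 : univ.filter (· < i) ⊆ univ.erase i := by
        intro j hj
        rw [mem_filter] at hj
        rw [mem_erase]
        exact ⟨hj.2.ne, mem_univ _⟩
      rw [← sum_subset e2]
      · apply sum_congr rfl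
        intro j hj
        rw [mem_filter] at hj
        rw [hb1]
        congr 1
        apply filter_true_of_mem
        intro y hy
        exact (glt j i).1 hj.2 y hy x hx
      · intro j hj hj'
        rw [mem_erase] at hj
        have h3 : i < j := by
          rcases lt_trichotomy i j with h | h | h
          · exact h
          · exact absurd h.symm hj.1
          · exact absurd (show j ∈ univ.filter (· < i) from mem_filter.2 ⟨mem_univ j, h⟩) hj'
        rw [card_eq_zero]
        apply filter_false_of_mem
        intro y hy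
        exact not_lt.2 ((glt i j).1 h3 x hx y hy).le
    · intro A hA B hB hne
      exact (hdis A hA B hB hne).mono (filter_subset _ _) (filter_subset _ _)
  have hrk2 : ∀ i : Fin N.card, ∀ x ∈ g i, st b i ≤ rk (N.biUnion id) x ∧
      rk (N.biUnion id) x < st b i + (b i + 1) := by
    intro i x hx
    rw [hrk i x hx, hb1]
    refine ⟨Nat.le_add_right _ _, Nat.add_lt_add_left ?_ _⟩
    apply card_lt_card
    rw [ssubset_iff_of_subset (filter_subset _ _)]
    exact ⟨x, hx, by simp⟩
  have hblk : ∀ i, blk (N.biUnion id) b i = g i := by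
    intro i
    ext x
    unfold blk
    rw [mem_filter, mem_biUnion]
    constructor
    · rintro ⟨⟨B, hB, hx⟩, h3, h4⟩
      rw [← gimg, mem_image] at hB
      obtain ⟨j, -, rfl⟩ := hB
      obtain ⟨h5, h6⟩ := hrk2 j x hx
      rcases lt_trichotomy i j with h | h | h
      · have := st_mono b h
        omega
      · rw [h]; exact hx
      · have := st_mono b h
        omega
    · intro hx
      exact ⟨⟨g i, gN i, hx⟩, hrk2 i x hx⟩
  refine ⟨b, ?_, ?_, ?_, ?_⟩
  · rw [show blk (N.biUnion id) b = g from funext hblk, gimg]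
  · rw [hsum (fun A => A.card)]
    exact sum_congr rfl fun i _ => (hb1 i).symm
  · rw [hprod (fun A => A.card.factorial)]
    exact prod_congr rfl fun i _ => by rw [hb1 i]
  · intro i
    exact ⟨g i, gN i, (hb1 i).symm⟩

/-- a partition is determined by its non-trivial classes -/
theorem nt_inj {P Q : Finpartition (univ : Finset (Fin n))} (h : nt P = nt Q) : P = Q := by
  have key : ∀ P Q : Finpartition (univ : Finset (Fin n)), nt P = nt Q → P.parts ⊆ Q.parts := by
    intro P Q h A hA
    by_cases h2 : 2 ≤ A.card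
    · have h3 : A ∈ nt P := mem_filter.2 ⟨hA, h2⟩
      rw [h] at h3
      exact (mem_filter.1 h3).1
    · have h3 : A.Nonempty := P.nonempty_of_mem_parts hA
      have h4 : A.card = 1 := by
        have := h3.card_pos
        omega
      obtain ⟨x, rfl⟩ := card_eq_one.1 h4
      obtain ⟨B, hB, hx⟩ := Q.exists_mem (mem_univ x)
      by_cases h5 : 2 ≤ B.card
      · have h6 : B ∈ nt Q := mem_filter.2 ⟨hB, h5⟩
        rw [← h] at h6
        have h7 : ({x} : Finset (Fin n)) = B := by
          by_contra hne
          have h8 := P.disjoint hA (mem_filter.1 h6).1 hne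
          exact (Finset.disjoint_left.1 h8) (mem_singleton_self x) hx
        rw [h7]
        exact hB
      · have h6 : B.card = 1 := by
          have := (Q.nonempty_of_mem_parts hB).card_pos
          omega
        obtain ⟨y, rfl⟩ := card_eq_one.1 h6
        rw [mem_singleton] at hx
        rw [hx]
        exact hB
  apply Finpartition.ext
  exact subset_antisymm (key P Q h) (key Q P h.symm)

/-- the sizes of the non-trivial classes -/
theorem sum_nt (P : Finpartition (univ : Finset (Fin n))) :
    (∑ A ∈ nt P, A.card) + P.parts.card = n + (nt P).card := by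
  have h1 : ∑ A ∈ P.parts, A.card = n := by
    rw [P.sum_card_parts, card_univ, Fintype.card_fin]
  have h2 := sum_filter_add_sum_filter_not P.parts (fun A => 2 ≤ A.card) (fun A => A.card)
  have h3 : ∑ A ∈ P.parts.filter (fun A => ¬ 2 ≤ A.card), A.card =
      (P.parts.filter (fun A => ¬ 2 ≤ A.card)).card := by
    rw [card_eq_sum_ones]
    apply sum_congr rfl
    intro A hA
    rw [mem_filter] at hA
    have := (P.nonempty_of_mem_parts hA.1).card_pos
    omega
  have h4 := card_filter_add_card_filter_not (s := P.parts) (fun A => 2 ≤ A.card)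
  unfold nt
  omega

/-- (SUM) for fixed number of non-trivial classes -/
theorem fixed (m r : ℕ) (S : Finset (Finpartition (univ : Finset (Fin n)))) (hm : m ≤ n)
    (hS : ∀ P ∈ S, SepP (fun i => (i : ℕ)) P ∧ P.parts.card = n - m ∧ (nt P).card = r) :
    ∑ P ∈ S, ∏ A ∈ nt P, A.card.factorial ≤ n.choose (m + r) * W m r := by
  classical
  set T := (powersetCard (m + r) (univ : Finset (Fin n))) ×ˢ
    ((Finset.piAntidiag (univ : Finset (Fin r)) m).filter (fun b => ∀ i, 1 ≤ b i)) with hT
  have key : ∀ P ∈ S, ∃ p : Finset (Fin n) × (Fin r → ℕ), p ∈ T ∧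
      nt P = univ.image (blk p.1 p.2) ∧
        ∏ A ∈ nt P, A.card.factorial = ∏ i, (p.2 i + 1).factorial := by
    intro P hP
    obtain ⟨h1, h2, h3⟩ := hS P hP
    have h4 := sum_nt P
    subst h3
    obtain ⟨b, g1, g2, g3, g4⟩ := blocks (nt P) (fun A hA => P.nonempty_of_mem_parts (mem_filter.1 hA).1)
      (fun A hA B hB hne => by
        rw [nt, mem_filter] at hA hB
        rcases h1 A hA.1 B hB.1 hne hA.2 hB.2 with h | h
        · exact Or.inl fun a ha b hb => h a ha b hb
        · exact Or.inr fun a ha b hb => h b hb a ha)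
    have h5 : ((nt P).biUnion id).card = ∑ A ∈ nt P, A.card := by
      rw [card_biUnion]
      · rfl
      · intro A hA B hB hne
        exact P.disjoint (mem_filter.1 hA).1 (mem_filter.1 hB).1 hne
    have h6 : ∑ i, (b i + 1) = ∑ i, b i + (nt P).card := by
      rw [sum_add_distrib, sum_const, card_univ, Fintype.card_fin, smul_eq_mul, mul_one]
    refine ⟨((nt P).biUnion id, b), ?_, g1, g3⟩
    rw [hT, mem_product, mem_powersetCard, mem_filter, mem_piAntidiag]
    refine ⟨⟨subset_univ _, ?_⟩, ⟨?_, fun i _ => mem_univ i⟩, fun i => ?_⟩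
    · show ((nt P).biUnion id).card = _
      omega
    · show ∑ i, b i = m
      omega
    · obtain ⟨A, hA, hc⟩ := g4 i
      have := (mem_filter.1 hA).2
      show 1 ≤ b i
      omega
  choose! φ hφ using key
  have hinj : Set.InjOn φ S := by
    intro P hP Q hQ h
    apply nt_inj
    rw [(hφ P hP).2.1, (hφ Q hQ).2.1, h]
  calc ∑ P ∈ S, ∏ A ∈ nt P, A.card.factorial
      = ∑ P ∈ S, ∏ i, ((φ P).2 i + 1).factorial := sum_congr rfl fun P hP => (hφ P hP).2.2
    _ = ∑ p ∈ S.image φ, ∏ i, (p.2 i + 1).factorial := by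
        rw [sum_image hinj]
    _ ≤ ∑ p ∈ T, ∏ i, (p.2 i + 1).factorial := by
        apply sum_le_sum_of_subset
        intro p hp
        rw [mem_image] at hp
        obtain ⟨P, hP, rfl⟩ := hp
        exact (hφ P hP).1
    _ = n.choose (m + r) * W m r := by
        rw [hT, sum_product]
        simp only [W]
        rw [sum_const, card_powersetCard, card_univ, Fintype.card_fin, smul_eq_mul]

theorem t_SUM : S_SUM := by
  classical
  intro n m hm hmn
  set PP : Set (Finpartition (univ : Finset (Fin n))) := {P |
      SepP (fun i => (i : ℕ)) P ∧ P.parts.card = n - m} with hPP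
  have hfin : PP.Finite := Set.toFinite _
  rw [finsum_mem_eq_finite_toFinset_sum _ hfin]
  set S := hfin.toFinset with hS
  have hmem : ∀ P ∈ S, SepP (fun i => (i : ℕ)) P ∧ P.parts.card = n - m := by
    intro P hP
    rw [hS, Set.Finite.mem_toFinset] at hP
    exact hP
  have hr : ∀ P ∈ S, (nt P).card ∈ Icc 1 m ∧ ∑ A ∈ nt P, A.card = m + (nt P).card := by
    intro P hP
    have h1 := (hmem P hP).2
    have h2 := sum_nt P
    have h3 : ∑ A ∈ nt P, A.card = m + (nt P).card := by omega
    have h4 : (nt P).card * 2 ≤ ∑ A ∈ nt P, A.card := by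
      rw [← smul_eq_mul]
      exact card_nsmul_le_sum _ _ _ fun A hA => (mem_filter.1 hA).2
    refine ⟨mem_Icc.2 ⟨?_, by omega⟩, h3⟩
    by_contra h5
    have h6 : (nt P).card = 0 := by omega
    rw [card_eq_zero.1 h6] at h3
    simp at h3
    omega
  rw [← sum_fiberwise_of_maps_to (t := Icc 1 m) (g := fun P => (nt P).card) (fun P hP => (hr P hP).1)]
  apply sum_le_sum
  intro r hr'
  have h1 := fixed m r (S.filter fun P => (nt P).card = r) hmn.le (fun P hP => by
    rw [mem_filter] at hP
    exact ⟨(hmem P hP.1).1, (hmem P hP.1).2, hP.2⟩)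
  have h2 : ∑ P ∈ S.filter (fun P => (nt P).card = r),
      (((nt P).card.factorial * ∏ A ∈ nt P, A.card.factorial : ℕ) : ℝ) /
        ((∑ A ∈ nt P, A.card).factorial : ℝ) =
      (r.factorial : ℝ) / (m + r).factorial *
        ((∑ P ∈ S.filter (fun P => (nt P).card = r), ∏ A ∈ nt P, A.card.factorial : ℕ) : ℝ) := by
    rw [Nat.cast_sum, mul_sum]
    apply sum_congr rfl
    intro P hP
    rw [mem_filter] at hP
    rw [(hr P hP.1).2, hP.2]
    push_cast
    ring
  rw [h2]
  have h3 : ((∑ P ∈ S.filter (fun P => (nt P).card = r), ∏ A ∈ nt P, A.card.factorial : ℕ) : ℝ) ≤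
      ((n.choose (m + r) * W m r : ℕ) : ℝ) := by exact_mod_cast h1
  calc (r.factorial : ℝ) / (m + r).factorial *
        ((∑ P ∈ S.filter (fun P => (nt P).card = r), ∏ A ∈ nt P, A.card.factorial : ℕ) : ℝ)
      ≤ (r.factorial : ℝ) / (m + r).factorial * ((n.choose (m + r) * W m r : ℕ) : ℝ) :=
        mul_le_mul_of_nonneg_left h3 (by positivity)
    _ = _ := by
        push_cast
        ring

end Pool.Agent.V7H62.CC
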